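import Mathlib
import Pool.Agent.K9h68.GP.Level

/-!
# Half of all the numbers `1 - ζ^a`
-/

set_option autoImplicit false

open Finset Polynomial Filter Topology

namespace Pool.Agent.K9h68.GP

open Pool.Agent.K9h94.KV (Rel Bad Tor cls class_sum class_nodes int_level)

/-- the integers `0 < a < q / 2` congruent to some `± g ^ j`, `j < L`, modulo `p`, `q = p ^ (n + 1)` -/
def powSet (p n : ℕ) (g : ZMod p) (L : ℕ) : Finset ℕ :=
  (range (p ^ (n + 1))).filter (fun a => 2 * a < p ^ (n + 1) ∧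
    (a : ZMod p) ∈ (range L).image (fun j => g ^ j) ∪ (range L).image (fun j => - g ^ j))

theorem mem_powSet {p n : ℕ} {g : ZMod p} {L a : ℕ} : a ∈ powSet p n g L ↔
    2 * a < p ^ (n + 1) ∧ ∃ j < L, (a : ZMod p) = g ^ j ∨ (a : ZMod p) = - g ^ j := by
  unfold powSet
  simp only [Finset.mem_filter, Finset.mem_range, Finset.mem_union, Finset.mem_image]
  constructor
  · rintro ⟨-, h1, h2⟩
    refine ⟨h1, ?_⟩
    rcases h2 with ⟨j, hj, h3⟩ | ⟨j, hj, h3⟩
    · exact ⟨j, hj, Or.inl h3.symm⟩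
    · exact ⟨j, hj, Or.inr h3.symm⟩
  · rintro ⟨h1, j, hj, h2⟩
    refine ⟨by omega, h1, ?_⟩
    rcases h2 with h2 | h2
    · exact Or.inl ⟨j, hj, h2.symm⟩
    · exact Or.inr ⟨j, hj, h2.symm⟩

section

variable {p : ℕ} [hp : Fact p.Prime]

lemma order_half (hp2 : p ≠ 2) {g : ZMod p} (hg : orderOf g = p - 1) :
    orderOf (g ^ 2) = (p - 1) / 2 := by
  have hp3 : p % 2 = 1 := Nat.odd_iff.1 (hp.out.odd_of_ne_two hp2)
  have h3 := hp.out.two_le
  rw [orderOf_pow_of_dvd (by norm_num) (by rw [hg]; omega), hg]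

lemma half_pow (hp2 : p ≠ 2) {g : ZMod p} (hg : orderOf g = p - 1) :
    g ^ ((p - 1) / 2) = -1 := by
  have hp3 : p % 2 = 1 := Nat.odd_iff.1 (hp.out.odd_of_ne_two hp2)
  have h3 := hp.out.two_le
  have h1 : (g ^ ((p - 1) / 2)) ^ 2 = 1 := by
    rw [← pow_mul, Nat.div_mul_cancel (by omega), ← hg, pow_orderOf_eq_one]
  rcases sq_eq_one_iff.1 h1 with h | h
  · exact absurd h (fun h => by
      have h4 := orderOf_dvd_of_pow_eq_one h
      rw [hg] at h4
      have := Nat.le_of_dvd (by omega) h4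
      omega)
  · exact h

/-- `2 L` residues -/
lemma card_powers (hp2 : p ≠ 2) {g : ZMod p} (hg : orderOf g = p - 1) {L : ℕ}
    (hL : L ≤ (p - 1) / 2) :
    ((range L).image (fun j => g ^ j) ∪ (range L).image (fun j => - g ^ j)).card = 2 * L := by
  have hp3 : p % 2 = 1 := Nat.odd_iff.1 (hp.out.odd_of_ne_two hp2)
  have h3 := hp.out.two_le
  have hinj : ∀ i < p - 1, ∀ j < p - 1, g ^ i = g ^ j → i = j := by
    intro i hi j hj h
    rw [← hg] at hi hj
    exact pow_injOn_Iio_orderOf (x := g) hi hj h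
  have h1 : ((range L).image (fun j => g ^ j)).card = L := by
    rw [Finset.card_image_of_injOn, card_range]
    intro i hi j hj h
    have hi' := Finset.mem_range.1 hi
    have hj' := Finset.mem_range.1 hj
    exact hinj i (by omega) j (by omega) h
  have h2 : ((range L).image (fun j => - g ^ j)).card = L := by
    rw [Finset.card_image_of_injOn, card_range]
    intro i hi j hj h
    have hi' := Finset.mem_range.1 hi
    have hj' := Finset.mem_range.1 hj
    exact hinj i (by omega) j (by omega) (neg_injective h)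
  rw [Finset.card_union_of_disjoint, h1, h2, two_mul]
  rw [Finset.disjoint_left]
  intro x hx hx'
  obtain ⟨i, hi, rfl⟩ := Finset.mem_image.1 hx
  obtain ⟨j, hj, h4⟩ := Finset.mem_image.1 hx'
  have hi' := Finset.mem_range.1 hi
  have hj' := Finset.mem_range.1 hj
  have h5 : g ^ (j + (p - 1) / 2) = g ^ i := by
    rw [pow_add, half_pow hp2 hg, ← h4, mul_neg_one]
  have h6 := hinj _ (by omega) _ (by omega) h5
  omega

/-- the number of the integers in `[0, p ^ (n + 1))` in a residue class modulo `p` -/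
lemma card_fiber (n : ℕ) (s : ZMod p) :
    ((range (p ^ (n + 1))).filter (fun a : ℕ => (a : ZMod p) = s)).card = p ^ n := by
  have h1 := Nat.count_modEq_card (b := p ^ (n + 1)) (r := p) hp.out.pos s.val
  rw [Nat.count_eq_card_filter_range] at h1
  have h2 : p ^ (n + 1) / p = p ^ n := by
    rw [pow_succ, Nat.mul_div_cancel _ hp.out.pos]
  have h3 : p ^ (n + 1) % p = 0 := Nat.mod_eq_zero_of_dvd (dvd_pow_self p (by omega))
  rw [h2, h3, if_neg (by omega), add_zero] at h1
  rw [← h1]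
  congr 1
  refine Finset.filter_congr fun a _ => ?_
  rw [← ZMod.natCast_eq_natCast_iff, ZMod.natCast_zmod_val]

/-- The number of the elements. -/
theorem card_powSet (hp2 : p ≠ 2) (n : ℕ) {g : ZMod p} (hg : orderOf g = p - 1) {L : ℕ}
    (hL : L ≤ (p - 1) / 2) : (powSet p n g L).card = p ^ n * L := by
  classical
  have hp3 : p % 2 = 1 := Nat.odd_iff.1 (hp.out.odd_of_ne_two hp2)
  set S : Finset (ZMod p) := (range L).image (fun j => g ^ j) ∪ (range L).image (fun j => - g ^ j)
    with hS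
  set q := p ^ (n + 1) with hq
  have hqodd : q % 2 = 1 := by
    rw [hq]
    exact Nat.odd_iff.1 ((Nat.odd_iff.2 hp3).pow)
  set B := (range q).filter (fun a : ℕ => (a : ZMod p) ∈ S) with hB
  have hBcard : B.card = p ^ n * (2 * L) := by
    have hmaps : (B : Set ℕ).MapsTo (fun a : ℕ => (a : ZMod p)) (S : Set (ZMod p)) :=
      fun a ha => Finset.mem_coe.2 (Finset.mem_filter.1 (Finset.mem_coe.1 ha)).2
    rw [Finset.card_eq_sum_card_fiberwise hmaps, ← card_powers hp2 hg hL, ← hS, mul_comm,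
      ← smul_eq_mul, ← Finset.sum_const]
    refine Finset.sum_congr rfl fun s hs => ?_
    rw [← card_fiber n s, hB, Finset.filter_filter]
    congr 1
    refine Finset.filter_congr fun a _ => ?_
    constructor
    · exact fun h => h.2
    · exact fun h => ⟨h ▸ hs, h⟩
  have hneg : ∀ s ∈ S, -s ∈ S := by
    intro s hs
    rw [hS, Finset.mem_union, Finset.mem_image, Finset.mem_image] at hs
    rw [hS, Finset.mem_union, Finset.mem_image, Finset.mem_image]
    rcases hs with ⟨j, hj, rfl⟩ | ⟨j, hj, rfl⟩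
    · exact Or.inr ⟨j, hj, rfl⟩
    · exact Or.inl ⟨j, hj, (neg_neg _).symm⟩
  have hg0 : g ≠ 0 := by
    rintro rfl
    rw [orderOf_zero] at hg
    have := hp.out.two_le
    omega
  have h0S : (0 : ZMod p) ∉ S := by
    intro h
    rw [hS, Finset.mem_union, Finset.mem_image, Finset.mem_image] at h
    rcases h with ⟨j, -, h⟩ | ⟨j, -, h⟩
    · exact pow_ne_zero j hg0 h
    · exact pow_ne_zero j hg0 (neg_eq_zero.1 h)
  have hcast : ∀ a : ℕ, a ≤ q → ((q - a : ℕ) : ZMod p) = -(a : ZMod p) := by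
    intro a ha
    rw [Nat.cast_sub ha, hq]
    simp
  have h1 : (B.filter (fun a => 2 * a < q)).card = (B.filter (fun a => ¬ 2 * a < q)).card := by
    refine Finset.card_nbij' (fun a => q - a) (fun a => q - a) ?_ ?_ ?_ ?_
    · intro a ha
      simp only [Finset.coe_filter, Set.mem_ofPred_eq, hB, Finset.mem_filter, Finset.mem_range] at ha ⊢
      obtain ⟨⟨h1, h2⟩, h3⟩ := ha
      have ha0 : a ≠ 0 := by
        rintro rfl
        rw [Nat.cast_zero] at h2
        exact h0S h2
      refine ⟨⟨by omega, ?_⟩, by omega⟩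
      rw [hcast a h1.le]
      exact hneg _ h2
    · intro a ha
      simp only [Finset.coe_filter, Set.mem_ofPred_eq, hB, Finset.mem_filter, Finset.mem_range] at ha ⊢
      obtain ⟨⟨h1, h2⟩, h3⟩ := ha
      have ha0 : a ≠ 0 := by
        rintro rfl
        rw [Nat.cast_zero] at h2
        exact h0S h2
      refine ⟨⟨by omega, ?_⟩, by omega⟩
      rw [hcast a h1.le]
      exact hneg _ h2
    · intro a ha
      simp only [Finset.coe_filter, Set.mem_ofPred_eq, hB, Finset.mem_filter, Finset.mem_range] at ha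
      dsimp only
      omega
    · intro a ha
      simp only [Finset.coe_filter, Set.mem_ofPred_eq, hB, Finset.mem_filter, Finset.mem_range] at ha
      dsimp only
      omega
  have h2 : (B.filter (fun a => 2 * a < q)).card + (B.filter (fun a => ¬ 2 * a < q)).card =
      B.card := Finset.card_filter_add_card_filter_not _
  have h3 : powSet p n g L = B.filter (fun a => 2 * a < q) := by
    unfold powSet
    rw [hB, Finset.filter_filter]
    refine Finset.filter_congr fun a _ => ?_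
    rw [and_comm]
  rw [h3]
  have h4 : 2 * (B.filter (fun a => 2 * a < q)).card = 2 * (p ^ n * L) := by
    rw [two_mul]
    nth_rewrite 2 [h1]
    rw [h2, hBcard]
    ring
  omega

end

/-- `bound p ((p - 1) / 2)` is about `(p - 1) / 4`. -/
theorem bound_half (ε : ℝ) (hε : 0 < ε) : ∃ P : ℕ, 2 ≤ P ∧ ∀ p : ℕ, P ≤ p →
    (1 / 2 - ε) * ((p - 1) / 2 : ℕ) ≤ bound p ((p - 1) / 2) := by
  have h1 := Real.isLittleO_log_id_atTop.def (c := ε / 4) (by positivity)
  have ht : Tendsto (fun p : ℕ => 4 * Real.log (2 * (p : ℝ))) atTop atTop := by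
    refine Tendsto.const_mul_atTop (by norm_num) (Real.tendsto_log_atTop.comp ?_)
    exact Tendsto.const_mul_atTop (by norm_num) tendsto_natCast_atTop_atTop
  obtain ⟨P, hP⟩ := Filter.eventually_atTop.1 (ht.eventually h1)
  refine ⟨max P 3, by omega, fun p hp => ?_⟩
  have hp1 : P ≤ p := (le_max_left _ _).trans hp
  have hp3 : 3 ≤ p := (le_max_right _ _).trans hp
  have h2 := hP p hp1
  have hpR : (3 : ℝ) ≤ p := by exact_mod_cast hp3
  have hl : 0 < Real.log p := Real.log_pos (by linarith)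
  have hl2 : 0 < Real.log (2 * p) := Real.log_pos (by linarith)
  rw [id, Real.norm_eq_abs, Real.norm_eq_abs, abs_of_pos (by positivity : (0:ℝ) < 4 * Real.log (2 * p))] at h2
  have h3 : Real.log (4 * Real.log (2 * p)) ≤ ε / 4 * (4 * Real.log (2 * p)) := (le_abs_self _).trans h2
  have h4 : Real.log (2 * p) ≤ 2 * Real.log p := by
    rw [Real.log_mul (by norm_num) (by linarith), two_mul]
    have : Real.log 2 ≤ Real.log p := Real.log_le_log (by norm_num) (by linarith)
    linarith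
  have h5 : (((p - 1) / 2 : ℕ) : ℝ) ≤ p / 2 := by
    have : 2 * ((p - 1) / 2) ≤ p := by omega
    have : (2 : ℝ) * (((p - 1) / 2 : ℕ) : ℝ) ≤ p := by exact_mod_cast this
    linarith
  have h6 : 1 ≤ (p - 1) / 2 := by omega
  have h6R : (1 : ℝ) ≤ (((p - 1) / 2 : ℕ) : ℝ) := by exact_mod_cast h6
  unfold bound
  refine mul_le_mul_of_nonneg_right ?_ (by linarith)
  have h7 : Real.log (8 * (((p - 1) / 2 : ℕ) : ℝ) * Real.log (2 * p)) ≤
      Real.log p + Real.log (4 * Real.log (2 * p)) := by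
    rw [← Real.log_mul (by linarith) (by positivity)]
    refine Real.log_le_log (by positivity) ?_
    nlinarith
  have h8 : Real.log (8 * (((p - 1) / 2 : ℕ) : ℝ) * Real.log (2 * p)) / (2 * Real.log p) ≤
      1 / 2 + ε := by
    rw [div_le_iff₀ (by positivity)]
    nlinarith
  linarith

/-- For every primitive root `g`: the numbers `1 - ζ^a`, `a ≡ ± g^j`, `j < L ≤ (1/2 - ε) (p - 1)/2`. -/
theorem half (ε : ℝ) (hε : 0 < ε) : ∃ P : ℕ, ∀ p : ℕ, P ≤ p → ∀ [Fact p.Prime] (n : ℕ) (K : Type)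
    [Field K] [CharZero K] [IsCyclotomicExtension {p ^ (n + 1)} ℚ K] (ζ : K),
    IsPrimitiveRoot ζ (p ^ (n + 1)) → ∀ g : ZMod p, orderOf g = p - 1 → ∀ L : ℕ,
    (L : ℝ) ≤ (1 / 2 - ε) * ((p - 1) / 2 : ℕ) →
    (powSet p n g L).card = p ^ n * L ∧
    ∀ (c : ℕ → ℤ) (w y : K), Tor w → ∏ a ∈ powSet p n g L, (1 - ζ ^ a) ^ (c a) = w * y ^ p →
      ∀ a ∈ powSet p n g L, (p : ℤ) ∣ c a := by
  obtain ⟨P, hP2, hP⟩ := bound_half ε hε
  refine ⟨P + 1, fun p hpP hp n K _ _ _ ζ hζ g hg L hL => ?_⟩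
  have hp2 : p ≠ 2 := by omega
  have h1 := hP p (by omega)
  have hL2 : L ≤ (p - 1) / 2 := by
    have h0 : (0 : ℝ) ≤ (((p - 1) / 2 : ℕ) : ℝ) := Nat.cast_nonneg _
    have : (L : ℝ) ≤ (((p - 1) / 2 : ℕ) : ℝ) := by nlinarith
    exact_mod_cast this
  have hg0 : g ≠ 0 := by
    rintro rfl
    rw [orderOf_zero] at hg
    omega
  refine ⟨card_powSet hp2 n hg hL2, fun c w y hw h => ?_⟩
  refine main_level hp2 hζ (fun _ => g) (fun _ => 1) (fun _ => hg0) (fun _ => one_ne_zero)
    (A := powSet p n g L) (fun a ha => ?_) (fun a ha => ?_) c w y hw h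
  · obtain ⟨h2, j, -, h3⟩ := mem_powSet.1 ha
    refine ⟨fun h4 => ?_, h2⟩
    rw [(ZMod.natCast_eq_zero_iff a p).2 h4] at h3
    rcases h3 with h3 | h3
    · exact pow_ne_zero j hg0 h3.symm
    · exact pow_ne_zero j hg0 (neg_eq_zero.1 h3.symm)
  · obtain ⟨h2, j, hj, h3⟩ := mem_powSet.1 ha
    refine ⟨j, ?_, by simpa only [one_mul] using h3⟩
    rw [order_half hp2 hg]
    have : ((j : ℝ) + 1) ≤ L := by exact_mod_cast hj
    linarith

end Pool.Agent.K9h68.GP
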